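import Pool.Agent.Helper58.FL.Tools

/-! FL-17b, FL-18: invariance of gaunt descent, the comparison with `Y D`, Segal descent. -/

open CategoryTheory MonoidalCategory Simplicial Opposite HomotopicalAlgebra

set_option autoImplicit false

namespace Pool.Agent.Helper72.RKE

open FL

section

variable {n : ℕ}

/-- The map of diagrams induced by a morphism of presheaves on `Cat_n`. -/
noncomputable def alongMap {F G : PSh n} (φ : PSh.Hom F G) {J : Type} [SmallCategory J]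
    (p : J ⥤ SP (Th n)) (hp : ∀ j, IsCat n (p.obj j)) : F.along p hp ⟶ G.along p hp where
  app j := φ.app ⟨p.obj j.unop, hp _⟩
  naturality {j j'} f := by
    ext k x
    exact φ.act (C := ⟨_, hp j'.unop⟩) (C' := ⟨_, hp j.unop⟩)
      (MpS.ofHom k.unop (p.map f.unop)) x

theorem compare_square {F G : PSh n} (φ : PSh.Hom F G) {J : Type} [SmallCategory J]
    (p : J ⥤ SP (Th n)) (hp : ∀ j, IsCat n (p.obj j)) {C : SP (Th n)} (hC : IsCat n C)
    (Λ : Hoco p ⟶ C) :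
    F.compare p hp hC Λ ≫ Mp.post (W J) (alongMap φ p hp) =
      φ.app ⟨C, hC⟩ ≫ G.compare p hp hC Λ := by
  ext k x
  refine MpS.ext ?_
  funext j l s w
  refine (φ.act (C := ⟨_, hp j.unop⟩) (C' := ⟨_, hC⟩) (coneS Λ w) _).trans ?_
  exact congrArg (G.act (C := ⟨_, hp j.unop⟩) (C' := ⟨_, hC⟩) (coneS Λ w))
    (sset_nat (φ.app ⟨C, hC⟩) s.op x)

theorem gauntDescent_of_equiv_of
    (hcomp : ∀ {X Y Z : SSet.{0}}, SSet.KanComplex X → SSet.KanComplex Y → SSet.KanComplex Z →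
      ∀ {f : X ⟶ Y} {g : Y ⟶ Z}, HoEq f → HoEq g → HoEq (f ≫ g))
    (hright : ∀ {X Y Z : SSet.{0}}, SSet.KanComplex X → SSet.KanComplex Y → SSet.KanComplex Z →
      ∀ {f : X ⟶ Y} {g : Y ⟶ Z}, HoEq g → HoEq (f ≫ g) → HoEq f)
    (hHK : ∀ {J : Type} [SmallCategory J] {G : SP J}, ObjKan G → SSet.KanComplex (Holim G))
    (hHH : ∀ {J : Type} [SmallCategory J] {G G' : SP J}, ObjKan G → ObjKan G' →
      ∀ (q : G ⟶ G'), ObjHoEq q → HoEq (Mp.post (W J) q))
    {F G : PSh n} (hF : F.Kan) (hG : G.Kan) (h : PSh.Equiv F G)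
    (hG' : G.GauntDescent) : F.GauntDescent := by
  obtain ⟨φ, hφ⟩ := h
  intro J _ p C Λ hΛ
  have hK1 : ObjKan (F.along p hΛ.cat_obj) := fun j => hF _
  have hK2 : ObjKan (G.along p hΛ.cat_obj) := fun j => hG _
  have h1 : HoEq (φ.app ⟨C, hΛ.cat_pt⟩ ≫ G.compare p hΛ.cat_obj hΛ.cat_pt Λ) :=
    hcomp (hF _) (hG _) (hHK hK2) (hφ _) (hG' J p C Λ hΛ)
  rw [← compare_square] at h1
  refine hright (hF _) (hHK hK1) (hHK hK2) ?_ h1
  exact hHH hK1 hK2 (alongMap φ p hΛ.cat_obj) (fun j => hφ _)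

theorem equiv_YD_iff_of (hrep : ∀ θ : Th n, IsCat n (rep θ))
    (hcomp : ∀ {X Y Z : SSet.{0}}, SSet.KanComplex X → SSet.KanComplex Y → SSet.KanComplex Z →
      ∀ {f : X ⟶ Y} {g : Y ⟶ Z}, HoEq f → HoEq g → HoEq (f ≫ g))
    (hright : ∀ {X Y Z : SSet.{0}}, SSet.KanComplex X → SSet.KanComplex Y → SSet.KanComplex Z →
      ∀ {f : X ⟶ Y} {g : Y ⟶ Z}, HoEq g → HoEq (f ≫ g) → HoEq f)
    (hHK : ∀ {J : Type} [SmallCategory J] {G : SP J}, ObjKan G → SSet.KanComplex (Holim G))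
    (hHH : ∀ {J : Type} [SmallCategory J] {G G' : SP J}, ObjKan G → ObjKan G' →
      ∀ (q : G ⟶ G'), ObjHoEq q → HoEq (Mp.post (W J) q))
    (hYD : ∀ (F : PSh n) (D : SP (Gn n)), ∃ e : PSh.Hom F (YD D) ≃ (F.restr hrep ⟶ ND D),
      ∀ (φ : PSh.Hom F (YD D)) (a : (Th n)ᵒᵖ), (e φ).app a = φ.app ⟨rep a.unop, hrep _⟩)
    (hcan : ∀ C : SP (Th n), IsCat n C → IsGaunt (canDiag C) (canCone C))
    (hYK : ∀ {D : SP (Gn n)}, InjFib D → (YD D).Kan)
    (hYG : ∀ {D : SP (Gn n)}, InjFib D → (∀ i, IsCat n (level D i)) → (YD D).GauntDescent)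
    {F : PSh n} (hF : F.Kan)
    (hF' : F.GauntDescent) {D : SP (Gn n)} (hD : InjFib D) (hc : ∀ i, IsCat n (level D i)) :
    PSh.Equiv F (YD D) ↔ ∃ f : F.restr hrep ⟶ ND D, ObjHoEq f := by
  obtain ⟨e, he⟩ := hYD F D
  constructor
  · rintro ⟨φ, hφ⟩
    refine ⟨e φ, fun a => ?_⟩
    rw [he φ a]
    exact hφ _
  · rintro ⟨f, hf⟩
    refine ⟨e.symm f, fun C => ?_⟩
    set φ : PSh.Hom F (YD D) := e.symm f with hφdef
    have hφ : ∀ a : (Th n)ᵒᵖ, HoEq (φ.app ⟨rep a.unop, hrep _⟩) := by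
      intro a
      rw [← he φ a, hφdef, Equiv.apply_symm_apply]
      exact hf a
    have hg := hcan C.1 C.2
    have hK1 : ObjKan (F.along (canDiag C.1) hg.cat_obj) := fun j => hF _
    have hK2 : ObjKan ((YD D).along (canDiag C.1) hg.cat_obj) := fun j => hYK hD _
    have h1 : HoEq (F.compare (canDiag C.1) hg.cat_obj hg.cat_pt (canCone C.1) ≫
        Mp.post (W _) (alongMap φ (canDiag C.1) hg.cat_obj)) := by
      refine hcomp (hF _) (hHK hK1) (hHK hK2) (hF' _ _ _ _ hg) ?_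
      exact hHH hK1 hK2 _ (fun j => hφ (op j.unop.a))
    rw [compare_square] at h1
    exact hright (hF _) (hYK hD _) (hHK hK2)
      (hYG hD hc _ _ _ _ hg) h1

/-- The cocone of a sieve at an object of the sieve is a strict map. -/
theorem coneS_svCone {θ : Th n} (S : Sieve θ) {j : SvObj S} {k : SimplexCategory}
    (w : WS j k) : coneS (svCone S) w = MpS.ofHom k (repMap j.f) := by
  refine MpS.ext ?_
  funext a l s x
  refine (Category.assoc (obj := Th n) x (w.u ≫ w.σ.zeroTo s).1 _).trans ?_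
  exact congrArg (fun t => CategoryStruct.comp (obj := Th n) x t) (w.u ≫ w.σ.zeroTo s).2

theorem segalDescent_restr (hrep : ∀ θ : Th n, IsCat n (rep θ)) {F : PSh n}
    (hF : F.GauntDescent) (hG : KnownGaunt n) : SegalDescent (F.restr hrep) := by
  intro θ S hS
  have h := hG θ S hS
  have h1 := hF _ _ _ _ h
  have h2 : F.compare (svDiag S) h.cat_obj h.cat_pt (svCone S) =
      sieveCompare (F.restr hrep) S := by
    ext k x
    refine MpS.ext ?_
    funext j l s w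
    exact congrArg (fun t => F.act (C := ⟨_, h.cat_obj j.unop⟩) (C' := ⟨_, h.cat_pt⟩) t _)
      (coneS_svCone S w)
  rw [← h2]
  exact h1

end

end Pool.Agent.Helper72.RKE
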